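import Pool.Agent.Lib.MP_32eaa8_co.Full

/-!
# Chvátal's simplex conjecture

Sets of vertices are `Finset`s of an arbitrary finite type `V` of vertices.
-/

namespace Pool.Agent.Results.MP_32eaa8_co.Chvatal

variable {V : Type*} [Fintype V] [DecidableEq V]

/-- `A 0, …, A d` form a `d`-simplex: they are `d + 1` distinct sets without a common element, and
for every `i` the `d` sets `A j`, `j ≠ i`, have a common element. -/
structure IsSimplex {d : ℕ} (A : Fin (d + 1) → Finset V) : Prop where
  distinct : Function.Injective A
  inter_all : (⋂ i, (A i : Set V)) = ∅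
  inter_others : ∀ i, (⋂ j ∈ {j | j ≠ i}, (A j : Set V)).Nonempty

/-- The family `G` contains a `d`-simplex. -/
def ContainsSimplex (d : ℕ) (G : Finset (Finset V)) : Prop :=
  ∃ A : Fin (d + 1) → Finset V, (∀ i, A i ∈ G) ∧ IsSimplex A

/-- The star with centre `v`: all `r`-element sets which contain `v`. -/
def star (r : ℕ) (v : V) : Finset (Finset V) :=
  (Finset.univ.powersetCard r).filter (fun A => v ∈ A)

/-- **Chvátal's simplex conjecture.** Let `r ≥ d + 1 ≥ 2` and let `V` be a finite set with
`n > r (d + 1) / d` elements. A family `G` of `r`-element subsets of `V` without a `d`-simplex has at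
most `(n - 1).choose (r - 1)` members, and it has exactly `(n - 1).choose (r - 1)` members if and only
if it is a star. Conversely, stars contain no `d`-simplex. -/
theorem result (d r : ℕ) (hd : 2 ≤ d + 1) (hr : d + 1 ≤ r)
    (hn : (r : ℝ) * (d + 1) / d < Fintype.card V) :
    (∀ G : Finset (Finset V), (∀ A ∈ G, A.card = r) → ¬ ContainsSimplex d G →
      G.card ≤ (Fintype.card V - 1).choose (r - 1) ∧
      (G.card = (Fintype.card V - 1).choose (r - 1) ↔ ∃ v, G = star r v)) ∧
    ∀ v : V, ¬ ContainsSimplex d (star r v) := by
  classical
  have hd1 : 1 ≤ d := by omega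
  have hdpos : (0 : ℝ) < d := by exact_mod_cast hd1
  have hn' : r * (d + 1) < d * Fintype.card V := by
    rw [div_lt_iff₀ hdpos] at hn
    have : ((r * (d + 1) : ℕ) : ℝ) < ((d * Fintype.card V : ℕ) : ℝ) := by
      push_cast
      linarith
    exact_mod_cast this
  set n := Fintype.card V with hncard
  have hrn : r < n := by
    by_contra hcon
    push Not at hcon
    have : d * n ≤ r * (d + 1) := by nlinarith
    omega
  have hstar : ∀ v : V, (star r v).card = (n - 1).choose (r - 1) := by
    intro v
    have h1 : (star r v).card = ((Finset.univ.erase v).powersetCard (r - 1)).card := by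
      refine Finset.card_bij' (fun A _ => A.erase v) (fun A _ => insert v A) ?_ ?_ ?_ ?_
      · intro A hA
        simp only [star, Finset.mem_filter, Finset.mem_powersetCard] at hA
        rw [Finset.mem_powersetCard]
        refine ⟨Finset.erase_subset_erase _ hA.1.1, ?_⟩
        rw [Finset.card_erase_of_mem hA.2, hA.1.2]
      · intro A hA
        rw [Finset.mem_powersetCard] at hA
        have hv : v ∉ A := fun h => (Finset.mem_erase.1 (hA.1 h)).1 rfl
        simp only [star, Finset.mem_filter, Finset.mem_powersetCard]
        refine ⟨⟨Finset.subset_univ _, ?_⟩, Finset.mem_insert_self _ _⟩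
        rw [Finset.card_insert_of_notMem hv, hA.2]
        omega
      · intro A hA
        simp only [star, Finset.mem_filter] at hA
        exact Finset.insert_erase hA.2
      · intro A hA
        rw [Finset.mem_powersetCard] at hA
        have hv : v ∉ A := fun h => (Finset.mem_erase.1 (hA.1 h)).1 rfl
        exact Finset.erase_insert hv
    rw [h1, Finset.card_powersetCard, Finset.card_erase_of_mem (Finset.mem_univ v),
      Finset.card_univ]
  refine ⟨?_, ?_⟩
  · intro G hG hfree
    let e : V ≃ Fin n := Fintype.equivFin V
    set F : Finset (Finset (Fin n)) := G.image (fun A => A.map e.toEmbedding) with hF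
    have hinj : Function.Injective (fun A : Finset V => A.map e.toEmbedding) :=
      Finset.map_injective _
    have hFcard : F.card = G.card := Finset.card_image_of_injective _ hinj
    have hFr : ∀ A ∈ F, A.card = r := by
      intro A hA
      obtain ⟨B, hB, rfl⟩ := Finset.mem_image.1 hA
      rw [Finset.card_map]
      exact hG B hB
    have hmem : ∀ B : Finset (Fin n), B ∈ F → B.map e.symm.toEmbedding ∈ G := by
      intro B hB
      obtain ⟨A, hA, rfl⟩ := Finset.mem_image.1 hB
      have : (A.map e.toEmbedding).map e.symm.toEmbedding = A := by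
        ext x
        simp
      rw [this]
      exact hA
    have hFs : ¬ ∃ S : Finset (Finset (Fin n)), S ⊆ F ∧ S.card = d + 1 ∧
            S.inf id = (∅ : Finset (Fin n)) ∧
            ∀ T : Finset (Finset (Fin n)), T ⊆ S → T.card = d → (T.inf id).Nonempty := by
      rintro ⟨S, hSF, hSc, hS0, hST⟩
      apply hfree
      obtain ⟨f⟩ : Nonempty (Fin (d + 1) ≃ S) :=
        ⟨(Fintype.equivFinOfCardEq (by rw [Fintype.card_coe, hSc])).symm⟩
      refine ⟨fun i => ((f i : Finset (Fin n))).map e.symm.toEmbedding, ?_, ?_, ?_, ?_⟩
      · intro i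
        exact hmem _ (hSF (f i).2)
      · intro i j hij
        have h := Finset.map_injective e.symm.toEmbedding hij
        exact f.injective (Subtype.ext h)
      · rw [Set.eq_empty_iff_forall_notMem]
        intro x hx
        rw [Set.mem_iInter] at hx
        have h1 : e x ∈ S.inf id := by
          rw [Finset.mem_inf]
          intro B hB
          have h2 := hx (f.symm ⟨B, hB⟩)
          simp only [Equiv.apply_symm_apply, Finset.coe_map, Set.mem_image] at h2
          obtain ⟨y, hy, rfl⟩ := h2
          simpa using hy
        rw [hS0] at h1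
        exact absurd h1 (Finset.notMem_empty _)
      · intro i
        have h1 := hST (S.erase (f i)) (Finset.erase_subset _ _)
          (by rw [Finset.card_erase_of_mem (f i).2, hSc]; rfl)
        obtain ⟨y, hy⟩ := h1
        rw [Finset.mem_inf] at hy
        refine ⟨e.symm y, ?_⟩
        rw [Set.mem_iInter₂]
        intro j hj
        have hne : (f j : Finset (Fin n)) ≠ f i := fun h => hj (f.injective (Subtype.ext h))
        have h2 := hy _ (Finset.mem_erase.2 ⟨hne, (f j).2⟩)
        simp only [Finset.coe_map, Set.mem_image]
        exact ⟨y, h2, rfl⟩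
    obtain ⟨h1, h2⟩ := Pool.Agent.Lib.MP_32eaa8_co.chvatal_fin d r n hd1 hr hn' F hFr hFs
    rw [hFcard] at h1 h2
    refine ⟨h1, ⟨?_, ?_⟩⟩
    · intro hcard
      obtain ⟨x, hx⟩ := h2 hcard
      refine ⟨e.symm x, ?_⟩
      apply Finset.eq_of_subset_of_card_le
      · intro A hA
        simp only [star, Finset.mem_filter, Finset.mem_powersetCard]
        refine ⟨⟨Finset.subset_univ _, hG A hA⟩, ?_⟩
        have h3 := hx _ (Finset.mem_image_of_mem _ hA)
        simp only [Finset.mem_map, Equiv.coe_toEmbedding] at h3
        obtain ⟨a, ha, rfl⟩ := h3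
        simpa using ha
      · rw [hstar, hcard]
    · rintro ⟨v, rfl⟩
      exact hstar v
  · rintro v ⟨A, hA, hS⟩
    have h1 : v ∈ (⋂ i, (A i : Set V)) := by
      rw [Set.mem_iInter]
      intro i
      have := hA i
      simp only [star, Finset.mem_filter] at this
      exact this.2
    rw [hS.inter_all] at h1
    exact h1

end Pool.Agent.Results.MP_32eaa8_co.Chvatal
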